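import Mathlib
import Pool.Agent.H292R2.Leh.Defs

open Polynomial
open Pool.Agent.H292R2.Leh

namespace Pool.Agent.H971R2.LehH

lemma card_nthRoots' (p : ℕ) (b : ℂ) : Multiset.card (nthRoots p b) = p := by
  unfold nthRoots
  have h := (IsAlgClosed.splits (X ^ p - C b : ℂ[X])).natDegree_eq_card_roots
  rw [natDegree_X_pow_sub_C] at h
  exact h.symm

lemma norm_mprod (s : Multiset ℂ) : ‖s.prod‖ = (s.map (fun b => ‖b‖)).prod := by
  rw [show ‖s.prod‖ = (normHom : ℂ →*₀ ℝ) s.prod from rfl, map_multiset_prod]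
  rfl

lemma prod_nthRoots (p : ℕ) (hp : 0 < p) (b : ℂ) (h : ℂ → ℝ) (v : ℝ)
    (hv : ∀ c : ℂ, c ^ p = b → h c = v) : ((nthRoots p b).map h).prod = v ^ p := by
  have h1 : (nthRoots p b).map h = (nthRoots p b).map (fun _ => v) := by
    apply Multiset.map_congr rfl
    intro c hc
    rw [mem_nthRoots hp] at hc
    exact hv c hc
  rw [h1, Multiset.map_const', Multiset.prod_replicate, card_nthRoots' p b]

lemma toC_expand (g : ℤ[X]) (p : ℕ) : toC (expand ℤ p g) = expand ℂ p (toC g) := by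
  unfold toC
  rw [map_expand]

lemma toC_monic {g : ℤ[X]} (h : g.Monic) : (toC g).Monic := h.map _

lemma toC_natDegree {g : ℤ[X]} (h : g.Monic) : (toC g).natDegree = g.natDegree :=
  h.natDegree_map _

lemma card_roots' {G : ℂ[X]} : Multiset.card G.roots = G.natDegree :=
  (IsAlgClosed.splits G).natDegree_eq_card_roots.symm

lemma roots_expand (G : ℂ[X]) (hG : G.Monic) (p : ℕ) (hp : 0 < p) :
    (expand ℂ p G).roots = G.roots.bind (fun b => nthRoots p b) := by
  have h1 : G = (G.roots.map (fun a => X - C a)).prod := by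
    have := (IsAlgClosed.splits G).eq_prod_roots_of_monic hG
    exact this
  conv_lhs => rw [h1]
  rw [map_multiset_prod, Multiset.map_map]
  have h2 : (G.roots.map ((expand ℂ p) ∘ (fun a => X - C a))) =
      G.roots.map (fun a => X ^ p - C a) := by
    apply Multiset.map_congr rfl
    intro a _
    simp [expand_C]
  rw [h2, roots_multiset_prod, Multiset.bind_map]
  · rfl
  · intro h0
    rw [Multiset.mem_map] at h0
    obtain ⟨a, _, ha⟩ := h0
    exact (monic_X_pow_sub_C a hp.ne').ne_zero ha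

lemma prod_expand (G : ℂ[X]) (hG : G.Monic) (p : ℕ) (hp : 0 < p) (h v : ℂ → ℝ)
    (hv : ∀ c : ℂ, h c = v (c ^ p)) :
    ((expand ℂ p G).roots.map h).prod = (G.roots.map v).prod ^ p := by
  rw [roots_expand G hG p hp, Multiset.map_bind, Multiset.prod_bind, ← Multiset.prod_map_pow]
  congr 1
  apply Multiset.map_congr rfl
  intro b _
  exact prod_nthRoots p hp b h (v b) (fun c hc => by rw [hv c, hc])

lemma rt_pow (p : ℕ) (hp : 0 < p) (b : ℂ) : (‖b‖ ^ ((p : ℝ)⁻¹)) ^ p = ‖b‖ :=
  Real.rpow_inv_natCast_pow (norm_nonneg b) hp.ne'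

lemma rt_norm (p : ℕ) (hp : 0 < p) (c : ℂ) : ‖c‖ = ‖c ^ p‖ ^ ((p : ℝ)⁻¹) := by
  rw [norm_pow]
  exact (Real.pow_rpow_inv_natCast (norm_nonneg c) hp.ne').symm

lemma MM_expand (g : ℤ[X]) (hg : g.Monic) (p : ℕ) (hp : 0 < p) : MM (expand ℤ p g) = MM g := by
  unfold MM
  rw [toC_expand, mahlerMeasure_eq_leadingCoeff_mul_prod_roots,
    mahlerMeasure_eq_leadingCoeff_mul_prod_roots]
  have hG := toC_monic hg
  have hE : (expand ℂ p (toC g)).Monic := hG.expand hp
  rw [hG.leadingCoeff, hE.leadingCoeff]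
  rw [prod_expand (toC g) hG p hp (fun a => max 1 ‖a‖) (fun b => max 1 (‖b‖ ^ ((p : ℝ)⁻¹)))
    (fun c => by rw [← rt_norm p hp c])]
  rw [← Multiset.prod_map_pow]
  congr 2
  apply Multiset.map_congr rfl
  intro b _
  have h1 := rt_pow p hp b
  have h0 : 0 ≤ ‖b‖ ^ ((p : ℝ)⁻¹) := Real.rpow_nonneg (norm_nonneg b) _
  rcases le_total (‖b‖ ^ ((p : ℝ)⁻¹)) 1 with h | h
  · rw [max_eq_left h, one_pow, max_eq_left]
    rw [← h1]; exact pow_le_one₀ h0 h
  · rw [max_eq_right h, h1, max_eq_right]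
    rw [← h1]; exact one_le_pow₀ h

lemma discr_roots (f : ℤ[X]) (hm : f.Monic) (hd : 0 < f.natDegree) :
    |(f.discr : ℝ)| = ((toC f).roots.map (fun c => ‖(derivative (toC f)).eval c‖)).prod := by
  have hF := toC_monic hm
  have hdeg : 0 < f.degree := natDegree_pos_iff_degree_pos.1 hd
  have h1 := resultant_deriv hdeg
  rw [hm.leadingCoeff, mul_one] at h1
  have h2 := resultant_map_map f (derivative f) f.natDegree (f.natDegree - 1)
    (Int.castRingHom ℂ)
  have h3 := resultant_eq_prod_eval (toC f) (derivative (toC f)) (f.natDegree - 1)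
    (by rw [← toC_natDegree hm]; exact natDegree_derivative_le _) (IsAlgClosed.splits _)
  rw [toC_natDegree hm, hF.leadingCoeff, one_pow, one_mul] at h3
  have h4 : (f.map (Int.castRingHom ℂ)) = toC f := rfl
  have h5 : ((derivative f).map (Int.castRingHom ℂ)) = derivative (toC f) := by
    rw [toC, derivative_map]
  rw [h4, h5, h3, h1] at h2
  have h6 : ‖_‖ = ‖_‖ := congrArg (fun z : ℂ => ‖z‖) h2
  rw [map_mul, norm_mul] at h6
  have h7 : ‖(Int.castRingHom ℂ) ((-1) ^ (f.natDegree * (f.natDegree - 1) / 2))‖ = 1 := by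
    simp
  rw [h7, one_mul] at h6
  have h8 : ‖(Int.castRingHom ℂ) f.discr‖ = |(f.discr : ℝ)| := by
    simp
  rw [h8] at h6
  rw [← h6]
  rw [norm_mprod, Multiset.map_map]
  rfl

lemma discr_expand (g : ℤ[X]) (hg : g.Monic) (p : ℕ) (hp : 0 < p) (hd : 0 < g.natDegree) :
    |((expand ℤ p g).discr : ℝ)| =
        (p : ℝ) ^ (p * g.natDegree) * |(g.coeff 0 : ℝ)| ^ (p - 1) * |(g.discr : ℝ)| ^ p := by
  have hG := toC_monic hg
  have hE : (expand ℤ p g).Monic := hg.expand hp
  have hdE : 0 < (expand ℤ p g).natDegree := by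
    rw [natDegree_expand]; positivity
  rw [discr_roots _ hE hdE, discr_roots g hg hd, toC_expand]
  rw [prod_expand (toC g) hG p hp _ (fun b => ‖(derivative (toC g)).eval b‖ *
      ((p : ℝ) * (‖b‖ ^ ((p : ℝ)⁻¹)) ^ (p - 1)))
    (fun c => by
      rw [← rt_norm p hp c, derivative_expand, eval_mul, expand_eval, norm_mul]
      simp)]
  have h0 : ((toC g).roots.map (fun b => (‖b‖ ^ ((p : ℝ)⁻¹)) ^ (p - 1))).prod ^ p =
      |(g.coeff 0 : ℝ)| ^ (p - 1) := by
    rw [← Multiset.prod_map_pow]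
    have h1 : ((toC g).roots.map (fun b => ((‖b‖ ^ ((p : ℝ)⁻¹)) ^ (p - 1)) ^ p)) =
        ((toC g).roots.map (fun b => ‖b‖ ^ (p - 1))) := by
      apply Multiset.map_congr rfl
      intro b _
      rw [← pow_mul, mul_comm (p - 1) p, pow_mul, rt_pow p hp b]
    rw [h1, Multiset.prod_map_pow]
    congr 1
    have h2 : ((toC g).roots.map (fun b => ‖b‖)).prod = ‖(toC g).roots.prod‖ :=
      (norm_mprod _).symm
    rw [h2]
    have h3 := (IsAlgClosed.splits (toC g)).coeff_zero_eq_prod_roots_of_monic hG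
    have h4 : (toC g).coeff 0 = ((g.coeff 0 : ℤ) : ℂ) := by
      simp [toC]
    have h5 : ‖(toC g).coeff 0‖ = ‖(toC g).roots.prod‖ := by
      rw [h3, norm_mul]; simp
    rw [← h5, h4]
    simp
  rw [Multiset.prod_map_mul, Multiset.prod_map_mul, Multiset.map_const', Multiset.prod_replicate,
    card_roots', toC_natDegree hg, mul_pow, mul_pow, h0]
  rw [← pow_mul, mul_comm g.natDegree p]
  ring

theorem expand_props (g : ℤ[X]) (p : ℕ) (hp : p.Prime) (hm : (expand ℤ p g).Monic)
    (hirr : Irreducible (expand ℤ p g)) :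
    g.Monic ∧ Irreducible g ∧ (expand ℤ p g).natDegree = p * g.natDegree ∧
      MM (expand ℤ p g) = MM g ∧
      |((expand ℤ p g).discr : ℝ)| =
        (p : ℝ) ^ (p * g.natDegree) * |(g.coeff 0 : ℝ)| ^ (p - 1) * |(g.discr : ℝ)| ^ p ∧
      ∀ q : ℕ, NoTors (expand ℤ p g) q → NoTors g q := by
  have hg : g.Monic := (monic_expand_iff hp.pos).1 hm
  have hig : Irreducible g := of_irreducible_expand hp.ne_zero hirr
  have hd : 0 < g.natDegree := by
    by_contra h0
    have h1 : g.natDegree = 0 := by omega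
    have h2 : g = 1 := hg.natDegree_eq_zero.1 h1
    exact hig.not_isUnit (h2 ▸ isUnit_one)
  refine ⟨hg, hig, ?_, MM_expand g hg p hp.pos, discr_expand g hg p hp.pos hd, ?_⟩
  · rw [natDegree_expand, mul_comm]
  · intro q hq b hb ζ hζ
    obtain ⟨c, hc⟩ := IsAlgClosed.exists_pow_nat_eq b hp.pos
    apply hq c
    · rw [toC_expand, IsRoot.def, expand_eval, hc]; exact hb
    · have h1 : IntermediateField.adjoin ℚ {b} ≤ IntermediateField.adjoin ℚ {c} := by
        rw [IntermediateField.adjoin_le_iff]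
        intro z hz
        rw [Set.mem_singleton_iff] at hz
        rw [hz, ← hc]
        exact pow_mem (IntermediateField.subset_adjoin ℚ {c} (Set.mem_singleton c)) p
      exact h1 hζ

end Pool.Agent.H971R2.LehH
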